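import Pool.Agent.H73.CBE.Stmts

/-!
Board CBE, row DOM.
-/

set_option autoImplicit false

open Set Filter Topology

namespace Pool.CBE

theorem dom_hol_cont {n : ℕ} {F : E n → ℝ} {a : ℝ} (ha : 0 < a)
    (h : ∀ R : ℝ, ∃ L : ℝ, ∀ z w : E n, ‖z‖ ≤ R → ‖w‖ ≤ R →
      ‖fderiv ℝ F z - fderiv ℝ F w‖ ≤ L * ‖z - w‖ ^ a) : Continuous (fderiv ℝ F) := by
  rw [continuous_iff_continuousAt]
  intro z
  obtain ⟨L, hL⟩ := h (‖z‖ + 1)
  rw [ContinuousAt, tendsto_iff_norm_sub_tendsto_zero]
  have hlim : Tendsto (fun w : E n => L * ‖w - z‖ ^ a) (𝓝 z) (𝓝 0) := by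
    have h1 : Tendsto (fun w : E n => ‖w - z‖) (𝓝 z) (𝓝 0) := by
      have : Continuous fun w : E n => ‖w - z‖ := by fun_prop
      have h2 := this.tendsto z
      simpa using h2
    have h3 : Tendsto (fun t : ℝ => t ^ a) (𝓝 0) (𝓝 0) := by
      have h4 := (Real.continuousAt_rpow_const 0 a (Or.inr ha.le)).tendsto
      rwa [Real.zero_rpow ha.ne'] at h4
    have h5 := (h3.comp h1).const_mul L
    simpa using h5
  refine squeeze_zero' (Eventually.of_forall fun w => norm_nonneg _) ?_ hlim
  have hb : ∀ᶠ w : E n in 𝓝 z, ‖w - z‖ < 1 := by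
    have : Continuous fun w : E n => ‖w - z‖ := by fun_prop
    have h2 := this.tendsto z
    rw [sub_self, norm_zero] at h2
    exact h2.eventually (gt_mem_nhds one_pos)
  filter_upwards [hb] with w hw
  refine hL w z ?_ (by linarith)
  have : ‖w‖ ≤ ‖w - z‖ + ‖z‖ := by
    have := norm_add_le (w - z) z
    rwa [sub_add_cancel] at this
  linarith

theorem dom_real {n : ℕ} (t : ℝ) (z : E n) : t • z = (t : ℂ) • z := by
  ext i
  simp

theorem DOM_thm (h1 : HPRStmt) (h2 : HDAStmt) (h3 : HHLStmt) : DOMStmt := by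
  intro n f d η C θ a hyp
  obtain ⟨hHf, hHc, m, M, hm, hM, hmM⟩ := h1 n f d η C θ a hyp
  obtain ⟨hdiff, -, -⟩ := h2 n f d η C θ a hyp
  have hhol := h3 n f d η C θ a hyp
  have hd := hyp.hd
  have hn := hyp.hn
  have hfd : ∀ z, fderiv ℝ (fun z => H f d z - 1) z = fderiv ℝ (H f d) z := fun z => by
    rw [fderiv_sub_const]
  have hHcont : Continuous (H f d) := continuous_iff_continuousAt.2 fun z => (hdiff z).continuousAt
  have hH0 : ∀ z, 0 ≤ H f d z := fun z => le_trans (by positivity) (hmM z).1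
  have hHz : H f d 0 = 0 := by
    have h := (hmM 0).2
    rw [norm_zero] at h
    have h' := hH0 0
    nlinarith
  have hscale : ∀ (c : ℂ) (z : E n), ‖c‖ ≤ 1 → H f d z - 1 < 0 → H f d (c • z) - 1 < 0 := by
    intro c z hc hz
    rw [hHc]
    have h4 : ‖c‖ ^ 2 ≤ 1 := pow_le_one₀ (norm_nonneg _) hc
    have h5 := mul_le_mul_of_nonneg_right h4 (hH0 z)
    linarith
  have hbdd : Bornology.IsBounded {z : E n | H f d z - 1 < 0} := by
    refine Metric.isBounded_closedBall.subset (?_ : _ ⊆ Metric.closedBall (0 : E n) (1 / m + 1))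
    intro z hz
    have hz' : H f d z < 1 := by
      have : H f d z - 1 < 0 := hz
      linarith
    rw [mem_closedBall_zero_iff]
    have h4 : m * ‖z‖ ^ 2 < 1 := lt_of_le_of_lt (hmM z).1 hz'
    have h5 : ‖z‖ ^ 2 < 1 / m := by
      rw [lt_div_iff₀ hm]
      linarith
    nlinarith [norm_nonneg z, sq_nonneg (‖z‖ - 1)]
  refine ⟨fun z => H f d z - 1, ?_, ?_, ?_, hscale, hbdd, ?_, ?_, ?_, ?_⟩
  · rw [contDiff_one_iff_fderiv]
    refine ⟨fun z => (hdiff z).sub_const 1, ?_⟩
    refine dom_hol_cont hyp.ha0 ?_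
    intro R
    obtain ⟨L, hL⟩ := hhol R
    refine ⟨L, fun z w hz hw => ?_⟩
    rw [hfd, hfd]
    exact hL z w hz hw
  · intro R
    obtain ⟨L, hL⟩ := hhol R
    refine ⟨L, fun z w hz hw => ?_⟩
    rw [hfd, hfd]
    exact hL z w hz hw
  · intro z hz h0
    have hz1 : H f d z = 1 := by
      have : H f d z - 1 = 0 := hz
      linarith
    rw [hfd] at h0
    have hc1 : HasDerivAt (fun t : ℝ => t • z) z 1 := by
      simpa using (hasDerivAt_id (1 : ℝ)).smul_const z
    have hc2 : HasFDerivAt (H f d) (fderiv ℝ (H f d) z) ((1 : ℝ) • z) := by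
      rw [one_smul]
      exact (hdiff z).hasFDerivAt
    have hc3 := hc2.comp_hasDerivAt (1 : ℝ) hc1
    rw [h0] at hc3
    have hc4 : (H f d ∘ fun t : ℝ => t • z) = fun t : ℝ => t ^ 2 := by
      funext t
      show H f d (t • z) = t ^ 2
      rw [dom_real, hHc, hz1, mul_one, Complex.norm_real, Real.norm_eq_abs, sq_abs]
    rw [hc4] at hc3
    have hc5 : HasDerivAt (fun t : ℝ => t ^ 2) 2 1 := by
      simpa using hasDerivAt_pow 2 (1 : ℝ)
    have := hc3.unique hc5
    norm_num at this
  · have hst : StarConvex ℝ (0 : E n) {z : E n | H f d z - 1 < 0} := by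
      intro z hz s t hs ht hst
      rw [smul_zero, zero_add, dom_real]
      refine hscale _ _ ?_ hz
      rw [Complex.norm_real, Real.norm_eq_abs, abs_of_nonneg ht]
      linarith
    have h0 : (0 : E n) ∈ {z : E n | H f d z - 1 < 0} := by
      show H f d 0 - 1 < 0
      rw [hHz]; norm_num
    exact (hst.isPathConnected h0).isConnected
  · intro z hz
    have hz' : H f d z < 1 := by
      have : H f d z - 1 < 0 := hz
      linarith
    show H f d (f z) - 1 < 0
    rw [hHf]
    have := pow_lt_one₀ (hH0 z) hz' (by omega : d ≠ 0)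
    linarith
  · intro L hL hLc
    have hfc : Continuous f := hyp.cd.continuous
    have heq : {z : E n | H f d z - 1 < 0} ∩ f ⁻¹' L = {z : E n | H f d z ≤ 1} ∩ f ⁻¹' L := by
      ext z
      constructor
      · rintro ⟨hz, hz'⟩
        refine ⟨?_, hz'⟩
        have : H f d z - 1 < 0 := hz
        show H f d z ≤ 1
        linarith
      · rintro ⟨hz, hz'⟩
        refine ⟨?_, hz'⟩
        have h5 : H f d (f z) - 1 < 0 := hL hz'
        rw [hHf] at h5
        have hz1 : H f d z ≤ 1 := hz
        show H f d z - 1 < 0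
        rcases lt_or_eq_of_le hz1 with h6 | h6
        · linarith
        · rw [h6, one_pow] at h5
          linarith
    have hclosed : IsClosed ({z : E n | H f d z - 1 < 0} ∩ f ⁻¹' L) := by
      rw [heq]
      exact (isClosed_le hHcont continuous_const).inter (hLc.isClosed.preimage hfc)
    exact Metric.isCompact_of_isClosed_isBounded hclosed (hbdd.subset inter_subset_left)
  · have hω := Complex.isPrimitiveRoot_exp d (by omega : d ≠ 0)
    set ω := Complex.exp (2 * Real.pi * Complex.I / d) with hωdef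
    have hω1 : ω ^ d = 1 := hω.pow_eq_one
    have hω2 : ω ≠ 1 := hω.ne_one (by omega)
    have hω3 : ‖ω‖ = 1 := Complex.norm_eq_one_of_pow_eq_one hω1 (by omega)
    let e : E n := EuclideanSpace.single (⟨0, by omega⟩ : Fin n) (1 : ℂ)
    have he : ‖e‖ = 1 := by simp [e]
    let t : ℝ := 1 / (M + 1)
    have ht : 0 < t := by positivity
    have hz : H f d ((t : ℂ) • e) - 1 < 0 := by
      have h6 := (hmM e).2
      rw [he, one_pow, mul_one] at h6
      rw [hHc, Complex.norm_real, Real.norm_eq_abs, sq_abs]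
      have h7 : t ^ 2 * H f d e ≤ t ^ 2 * M := mul_le_mul_of_nonneg_left h6 (sq_nonneg t)
      have h8 : t ^ 2 * M < 1 := by
        have h9 : t * (M + 1) = 1 := by
          simp only [t]; field_simp
        have h10 : t ≤ 1 := by
          simp only [t]
          rw [div_le_one (by linarith)]
          linarith
        nlinarith
      linarith
    refine ⟨(t : ℂ) • e, ω • ((t : ℂ) • e), hz, hscale ω _ hω3.le hz, ?_, ?_⟩
    · intro heq
      have h6 : (ω - 1) • ((t : ℂ) • e) = 0 := by
        rw [sub_smul, one_smul, ← heq, sub_self]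
      rcases smul_eq_zero.1 h6 with h7 | h7
      · exact hω2 (sub_eq_zero.1 h7)
      · rcases smul_eq_zero.1 h7 with h8 | h8
        · exact ht.ne' (by exact_mod_cast h8)
        · rw [h8, norm_zero] at he
          exact zero_ne_one he
    · rw [hyp.hom ω ((t : ℂ) • e), hω1, one_smul]

end Pool.CBE
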